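import Pool.Agent.Q17.ML2.Stm

/-!
# Project CA (helper17), job WI: extensions with group `C₂ ≀ (H, H ⧸ W)`
-/

set_option autoImplicit false

open Pool.Agent.TH444.ML IntermediateField

namespace Pool.Agent.Q277.ML2

open Pool.Agent.Q17.ML2 Pool.Agent.TH365.J3099

/-! ### the wreath product -/

section wr

variable {H : Type} [Group H] {W : Subgroup H}

/-- the permutation `(x, b) ↦ (h x, f x b)` -/
def wrS (p : H × (H ⧸ W → Equiv.Perm Bool)) : Equiv.Perm ((H ⧸ W) × Bool) where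
  toFun x := (p.1 • x.1, p.2 x.1 x.2)
  invFun y := (p.1⁻¹ • y.1, (p.2 (p.1⁻¹ • y.1)).symm y.2)
  left_inv x := by simp
  right_inv y := by simp

theorem wrS_fst (p : H × (H ⧸ W → Equiv.Perm Bool)) (x : (H ⧸ W) × Bool) :
    (wrS p x).1 = p.1 • x.1 := rfl

theorem wrS_snd (p : H × (H ⧸ W → Equiv.Perm Bool)) (x : (H ⧸ W) × Bool) :
    (wrS p x).2 = p.2 x.1 x.2 := rfl

/-- `H` acts faithfully on `H ⧸ W` -/
theorem faith (hW : W.normalCore = ⊥) {a b : H} (h : ∀ x : H ⧸ W, a • x = b • x) : a = b := by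
  have h1 : b⁻¹ * a ∈ W.normalCore := by
    rw [Subgroup.normalCore_eq_ker, MonoidHom.mem_ker]
    ext1 x
    rw [MulAction.toPermHom_apply, MulAction.toPerm_apply, mul_smul, h, inv_smul_smul]
    rfl
  rw [hW, Subgroup.mem_bot] at h1
  exact (inv_mul_eq_one.1 h1).symm

theorem wrS_injective (hW : W.normalCore = ⊥) : Function.Injective (wrS (W := W)) := by
  rintro ⟨h, f⟩ ⟨h', f'⟩ e
  have e1 : ∀ x : (H ⧸ W) × Bool, wrS (h, f) x = wrS (h', f') x := fun x => by rw [e]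
  have h1 : h = h' := faith hW fun x => congrArg Prod.fst (e1 (x, true))
  subst h1
  have h2 : f = f' := by
    funext x
    ext b
    have := congrArg Prod.snd (e1 (x, b))
    rw [wrS_snd, wrS_snd] at this
    simpa using this
  rw [h2]

theorem range_wrS : Set.range (wrS (W := W)) = WrS H W := by
  ext π
  constructor
  · rintro ⟨⟨h, f⟩, rfl⟩
    exact ⟨h, fun x => rfl⟩
  · rintro ⟨h, hh⟩
    have inj : ∀ x : H ⧸ W, Function.Injective (fun b : Bool => (π (x, b)).2) := by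
      intro x b b' hb
      have : π (x, b) = π (x, b') := by
        apply Prod.ext
        · rw [hh, hh]
        · exact hb
      have := π.injective this
      exact congrArg Prod.snd this
    refine ⟨(h, fun x => Equiv.ofBijective _ (Finite.injective_iff_bijective.1 (inj x))), ?_⟩
    ext1 x
    apply Prod.ext
    · rw [wrS_fst, hh]
    · rw [wrS_snd]
      rfl

theorem ncard_WrS [Finite H] (hW : W.normalCore = ⊥) :
    (WrS H W).ncard = 2 ^ W.index * Nat.card H := by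
  classical
  have : Fintype (H ⧸ W) := Fintype.ofFinite _
  rw [← range_wrS, ← Set.image_univ, Set.ncard_image_of_injective _ (wrS_injective hW),
    Set.ncard_univ, Nat.card_prod, Nat.card_fun, mul_comm, Subgroup.index_eq_card]
  congr 2
  rw [Nat.card_eq_fintype_card, Fintype.card_perm]
  simp

end wr

/-! ### the two directions -/

section main

variable {K Ω : Type} [Field K] [CharZero K] [Field Ω] [Algebra K Ω] [IsAlgClosure K Ω]
variable {H : Type} [Group H] [Finite H] {W : Subgroup H}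

omit [CharZero K] in
/-- embeddings extend to automorphisms -/
theorem ext_emb (M : IntermediateField K Ω) (ψ : M →ₐ[K] Ω) :
    ∃ σ : Ω ≃ₐ[K] Ω, act M σ M.val = ψ := by
  have i2 : Normal K Ω := IsAlgClosure.normal K Ω
  have i3 : Algebra.IsAlgebraic K Ω := IsAlgClosure.isAlgebraic
  refine ⟨AlgEquiv.ofBijective (ψ.liftNormal Ω) (AlgHom.normal_bijective K Ω Ω _), ?_⟩
  ext x
  exact ψ.liftNormal_commutes Ω x

/-- the action of `Gal(Ω/K)` on the embeddings of `M` through a homomorphism to `H` -/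
theorem galS_of_hom (h : (Ω ≃ₐ[K] Ω) →* H) (hs : Function.Surjective h) (x₀ : H ⧸ W)
    (M : IntermediateField K Ω) [FiniteDimensional K M]
    (hM : ∀ σ, σ ∈ M.fixingSubgroup ↔ h σ • x₀ = x₀) : M ∈ GalS K Ω H W := by
  have i1 : IsAlgClosed Ω := IsAlgClosure.isAlgClosed K
  have i2 : Normal K Ω := IsAlgClosure.normal K Ω
  have i3 : Algebra.IsAlgebraic K Ω := IsAlgClosure.isAlgebraic
  have hext : ∀ ψ : M →ₐ[K] Ω, ∃ σ : Ω ≃ₐ[K] Ω, act M σ M.val = ψ := ext_emb M
  choose s hsψ using hext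
  have key : ∀ σ τ : Ω ≃ₐ[K] Ω, act M σ M.val = act M τ M.val ↔ h σ • x₀ = h τ • x₀ := by
    intro σ τ
    have h1 : act M σ M.val = act M τ M.val ↔ τ⁻¹ * σ ∈ M.fixingSubgroup := by
      rw [IntermediateField.mem_fixingSubgroup_iff]
      constructor
      · intro h2 x hx
        have h3 := congrArg (fun φ : M →ₐ[K] Ω => φ ⟨x, hx⟩) h2
        change σ x = τ x at h3
        rw [AlgEquiv.mul_apply, h3]
        exact τ.symm_apply_apply x
      · intro h2
        ext x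
        have h3 := h2 x x.2
        rw [AlgEquiv.mul_apply] at h3
        change σ x = τ x
        have h4 := congrArg τ h3
        rw [← h4]
        exact (τ.apply_symm_apply _).symm
    rw [h1, hM, map_mul, map_inv, mul_smul, inv_smul_eq_iff]
  let f : (M →ₐ[K] Ω) → H ⧸ W := fun ψ => h (s ψ) • x₀
  have hf : ∀ (σ : Ω ≃ₐ[K] Ω) (ψ : M →ₐ[K] Ω), f (act M σ ψ) = h σ • f ψ := by
    intro σ ψ
    change h (s (act M σ ψ)) • x₀ = h σ • (h (s ψ) • x₀)
    rw [← mul_smul, ← map_mul, ← key, hsψ, map_mul, Equiv.Perm.mul_apply, hsψ]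
  have hinj : Function.Injective f := by
    intro ψ ψ' e
    have h1 := (key (s ψ) (s ψ')).2 e
    rwa [hsψ, hsψ] at h1
  have hsur : Function.Surjective f := by
    intro x
    obtain ⟨a, ha⟩ := MulAction.exists_smul_eq H x₀ x
    obtain ⟨σ, rfl⟩ := hs a
    refine ⟨act M σ M.val, ?_⟩
    change h (s (act M σ M.val)) • x₀ = x
    rw [← ha, ← key, hsψ]
  let e : (M →ₐ[K] Ω) ≃ H ⧸ W := Equiv.ofBijective f ⟨hinj, hsur⟩
  have he : ∀ (σ : Ω ≃ₐ[K] Ω) (ψ : M →ₐ[K] Ω), e (σ.toAlgHom.comp ψ) = h σ • e ψ := hf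
  refine ⟨inferInstance, e, fun π => ⟨?_, ?_⟩⟩
  · rintro ⟨a, ha⟩
    obtain ⟨σ, rfl⟩ := hs a
    exact ⟨σ, fun φ => by rw [he, ha]⟩
  · rintro ⟨σ, hσ⟩
    refine ⟨h σ, fun x => ?_⟩
    obtain ⟨φ, rfl⟩ := e.surjective x
    rw [← hσ, he]

theorem forward (hW : W.normalCore = ⊥)
    (hdeg : ∀ M ∈ GalS K Ω H W, Module.finrank K M = W.index ∧
      Module.finrank K (IntermediateField.normalClosure K M Ω) = Nat.card H)
    (L : IntermediateField K Ω) (hL : Module.finrank K L = 2 * W.index)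
    (hw : IsWrS K Ω H W L) : ∃ M, MidS K Ω H W L M := by
  obtain ⟨e, he⟩ := hw
  have hpos : 0 < W.index := Nat.pos_of_ne_zero Subgroup.index_ne_zero_of_finite
  have hfd : FiniteDimensional K L := FiniteDimensional.of_finrank_pos (by omega)
  have i1 : IsAlgClosed Ω := IsAlgClosure.isAlgClosed K
  have i2 : Normal K Ω := IsAlgClosure.normal K Ω
  have i3 : Algebra.IsAlgebraic K Ω := IsAlgClosure.isAlgebraic
  have i4 : Algebra.IsSeparable K Ω := inferInstance
  have i5 : IsGalois K Ω := ⟨⟩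
  let P : (Ω ≃ₐ[K] Ω) →* Equiv.Perm ((H ⧸ W) × Bool) := e.permCongrHom.toMonoidHom.comp (act L)
  have hP : ∀ (σ : Ω ≃ₐ[K] Ω) (φ : L →ₐ[K] Ω), e (act L σ φ) = P σ (e φ) := by
    intro σ φ
    change _ = e (act L σ (e.symm (e φ)))
    rw [Equiv.symm_apply_apply]
  have hPW : ∀ σ, ∃ a : H, ∀ x : (H ⧸ W) × Bool, (P σ x).1 = a • x.1 :=
    fun σ => (he _).2 ⟨σ, fun φ => hP σ φ⟩
  choose h0 hh0 using hPW
  have huniq : ∀ (σ : Ω ≃ₐ[K] Ω) (a : H), (∀ x : (H ⧸ W) × Bool, (P σ x).1 = a • x.1) →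
      h0 σ = a := by
    intro σ a ha
    refine faith hW fun x => ?_
    rw [← ha (x, true), ← hh0 σ (x, true)]
  let h : (Ω ≃ₐ[K] Ω) →* H :=
    { toFun := h0
      map_one' := huniq 1 1 fun x => by rw [map_one, Equiv.Perm.one_apply, one_smul]
      map_mul' := fun σ τ => huniq (σ * τ) (h0 σ * h0 τ) fun x => by
        rw [map_mul, Equiv.Perm.mul_apply, hh0, hh0, mul_smul] }
  have hh : ∀ (σ : Ω ≃ₐ[K] Ω) (x : (H ⧸ W) × Bool), (P σ x).1 = h σ • x.1 := hh0
  have hs : Function.Surjective h := by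
    intro a
    obtain ⟨σ, hσ⟩ := (he (wrS (a, 1))).1 ⟨a, fun x => rfl⟩
    refine ⟨σ, huniq σ a fun x => ?_⟩
    have h1 := hσ (e.symm x)
    rw [← act_apply, hP, Equiv.apply_symm_apply] at h1
    rw [h1]
    rfl
  obtain ⟨x₀, hx₀⟩ : ∃ x₀, x₀ = (e L.val).1 := ⟨_, rfl⟩
  obtain ⟨U, hU⟩ : ∃ U : Subgroup (Ω ≃ₐ[K] Ω), U = (MulAction.stabilizer H x₀).comap h := ⟨_, rfl⟩
  have hUm : ∀ σ, σ ∈ U ↔ h σ • x₀ = x₀ := by
    intro σ
    rw [hU, Subgroup.mem_comap, MulAction.mem_stabilizer_iff]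
  have hker : L.fixingSubgroup ≤ U := by
    intro σ hσ
    rw [hUm]
    have h1 : act L σ L.val = L.val := by
      ext x
      rw [act_apply_apply]
      rw [IntermediateField.mem_fixingSubgroup_iff] at hσ
      exact hσ _ x.2
    have h2 := hP σ L.val
    rw [h1] at h2
    have h3 := hh σ (e L.val)
    rw [← h2, ← hx₀] at h3
    exact h3.symm
  have hopen : IsOpen (U : Set (Ω ≃ₐ[K] Ω)) :=
    Subgroup.isOpen_mono hker L.fixingSubgroup_isOpen
  have hclosed : IsClosed (U : Set (Ω ≃ₐ[K] Ω)) := Subgroup.isClosed_of_isOpen _ hopen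
  obtain ⟨M, hMdef⟩ : ∃ M, M = fixedField U := ⟨_, rfl⟩
  have hM : M.fixingSubgroup = U := by
    rw [hMdef]
    exact InfiniteGalois.fixingSubgroup_fixedField ⟨U, hclosed⟩
  have hML : M ≤ L := by
    rw [← InfiniteGalois.fixedField_fixingSubgroup L, hMdef]
    intro x hx
    rw [mem_fixedField_iff] at hx ⊢
    exact fun σ hσ => hx σ (hker hσ)
  have hMfd : FiniteDimensional K M := by
    rw [← InfiniteGalois.isOpen_iff_finite, hM]
    exact hopen
  have hMG : M ∈ GalS K Ω H W := galS_of_hom h hs x₀ M fun σ => by rw [hM, hUm]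
  obtain ⟨hd1, hd2⟩ := hdeg M hMG
  refine ⟨M, hMG, hML, hfd, by rw [hL, hd1], ?_⟩
  have h1 : imP L e = WrS H W := by
    ext π
    exact (he π).symm
  rw [← ncard_imP L e, h1, ncard_WrS hW, hd1, hd2]

theorem backward (hW : W.normalCore = ⊥)
    (hdeg : ∀ M ∈ GalS K Ω H W, Module.finrank K M = W.index ∧
      Module.finrank K (IntermediateField.normalClosure K M Ω) = Nat.card H)
    (L M : IntermediateField K Ω) (h : MidS K Ω H W L M) :
    Module.finrank K L = 2 * W.index ∧ IsWrS K Ω H W L := by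
  obtain ⟨hMG, hML, hLfd, hLM, hN⟩ := h
  obtain ⟨hd1, hd2⟩ := hdeg M hMG
  obtain ⟨hMfd, eM, heM⟩ := hMG
  have i1 : IsAlgClosed Ω := IsAlgClosure.isAlgClosed K
  have i2 : Normal K Ω := IsAlgClosure.normal K Ω
  have i3 : Algebra.IsAlgebraic K Ω := IsAlgClosure.isAlgebraic
  have i4 : Algebra.IsSeparable K Ω := inferInstance
  refine ⟨by rw [hLM, hd1], ?_⟩
  let i : M →ₐ[K] L := IntermediateField.inclusion hML
  let r : (L →ₐ[K] Ω) → (M →ₐ[K] Ω) := fun φ => φ.comp i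
  have hr : ∀ (σ : Ω ≃ₐ[K] Ω) (φ : L →ₐ[K] Ω), r (act L σ φ) = act M σ (r φ) := fun σ φ => rfl
  have hext : ∀ ψ : M →ₐ[K] Ω, ∃ σ : Ω ≃ₐ[K] Ω, act M σ M.val = ψ := ext_emb M
  choose s hsr using hext
  let F : (L →ₐ[K] Ω) ≃ (M →ₐ[K] Ω) × {φ : L →ₐ[K] Ω // r φ = M.val} :=
    { toFun := fun φ => (r φ, ⟨act L (s (r φ))⁻¹ φ, by
        rw [hr, map_inv, Equiv.Perm.inv_eq_iff_eq, hsr]⟩)
      invFun := fun p => act L (s p.1) p.2.1
      left_inv := fun φ => by
        change act L (s (r φ)) (act L (s (r φ))⁻¹ φ) = φ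
        rw [← Equiv.Perm.mul_apply, ← map_mul, mul_inv_cancel, map_one, Equiv.Perm.one_apply]
      right_inv := fun p => by
        obtain ⟨a, φ, hφ⟩ := p
        have h1 : r (act L (s a) φ) = a := by rw [hr, hφ, hsr]
        apply Prod.ext
        · exact h1
        · apply Subtype.ext
          change act L (s (r (act L (s a) φ)))⁻¹ (act L (s a) φ) = φ
          rw [h1, ← Equiv.Perm.mul_apply, ← map_mul, inv_mul_cancel, map_one,
            Equiv.Perm.one_apply] }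
  have hfin : Finite (L →ₐ[K] Ω) := inferInstance
  have hcX : Nat.card (L →ₐ[K] Ω) = Module.finrank K L := by
    rw [← AlgHom.card K L Ω, Nat.card_eq_fintype_card]
  have hcM : Nat.card (M →ₐ[K] Ω) = Module.finrank K M := by
    rw [← AlgHom.card K M Ω, Nat.card_eq_fintype_card]
  have hMpos : 0 < Module.finrank K M := Module.finrank_pos
  have hc2 : Nat.card {φ : L →ₐ[K] Ω // r φ = M.val} = Nat.card Bool := by
    have h1 := Nat.card_congr F
    rw [Nat.card_prod, hcX, hcM, hLM, mul_comm] at h1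
    have h2 := Nat.eq_of_mul_eq_mul_left hMpos h1
    rw [← h2]
    simp
  let β : {φ : L →ₐ[K] Ω // r φ = M.val} ≃ Bool := (Finite.card_eq.1 hc2).some
  let e : (L →ₐ[K] Ω) ≃ (H ⧸ W) × Bool := F.trans (Equiv.prodCongr eM β)
  have he1 : ∀ φ, (e φ).1 = eM (r φ) := fun φ => rfl
  have hsub : imP L e ⊆ WrS H W := by
    rintro π ⟨σ, hσ⟩
    obtain ⟨a, ha⟩ := (heM (eM.permCongr (act M σ))).2 ⟨σ, fun φ => by
      rw [Equiv.permCongr_apply, Equiv.symm_apply_apply, act_apply]⟩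
    refine ⟨a, fun x => ?_⟩
    obtain ⟨φ, rfl⟩ := e.surjective x
    rw [← hσ φ, ← act_apply, he1, he1, hr, ← ha, Equiv.permCongr_apply, Equiv.symm_apply_apply]
  have heq : imP L e = WrS H W := by
    apply Set.eq_of_subset_of_ncard_le hsub
    rw [ncard_imP L e, ncard_WrS hW, hN, hd1, hd2]
  refine ⟨e, fun π => ?_⟩
  rw [← heq]
  rfl

end main

theorem t_WI : S_WI := by
  intro hD K Ω _ _ _ _ _ H _ _ W hW L
  have hdeg : ∀ M ∈ GalS K Ω H W, Module.finrank K M = W.index ∧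
      Module.finrank K (IntermediateField.normalClosure K M Ω) = Nat.card H := fun M hM =>
    ⟨((hD K Ω H W hW).1 M hM).1, ((hD K Ω H W hW).1 M hM).2.1⟩
  constructor
  · rintro ⟨h1, h2⟩
    exact forward hW hdeg L h1 h2
  · rintro ⟨M, hM⟩
    exact backward hW hdeg L M hM

end Pool.Agent.Q277.ML2
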